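import Pool.Agent.H8.EDA.Fin

/-!
# Polynomial self-maps of affine space as self-maps of the hyperplane `X 0 = 0`
-/

set_option autoImplicit false

open MvPolynomial
open Pool.Agent.H12.ZD (pmap)
open Pool.Agent.H18.HIT Pool.Agent.H18.HX Pool.Agent.H18.VZ
open Pool.Agent.H8.TD (lc dg)
open Pool.Agent.H2.ED

namespace Pool.Agent.H2.EDF

section

variable {N : ℕ} {k : Type} [Field k]

/-- the point of the hyperplane which belongs to a point of the affine space -/
def apt {A : Type} [Zero A] [One A] (z : Fin N → A) : Fin (N + 2) → A :=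
  Fin.cons 0 (Fin.cons 1 z)

theorem apt_zero {A : Type} [Zero A] [One A] (z : Fin N → A) : apt z 0 = 0 := rfl

theorem apt_one {A : Type} [Zero A] [One A] (z : Fin N → A) : apt z 1 = 1 := rfl

theorem apt_ss {A : Type} [Zero A] [One A] (z : Fin N → A) (i : Fin N) :
    apt z i.succ.succ = z i := rfl

theorem apt_ext {A : Type} [Zero A] [One A] {x : Fin (N + 2) → A} (h0 : x 0 = 0) (h1 : x 1 = 1) :
    apt (fun i => x i.succ.succ) = x := by
  funext i
  refine Fin.cases ?_ (fun i => ?_) i
  · rw [apt_zero, h0]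
  · refine Fin.cases ?_ (fun i => ?_) i
    · exact h1.symm
    · rfl

/-- the restriction to the affine space -/
noncomputable def rsa : Po (N + 2) k →ₐ[k] Po N k := aeval (apt (X : Fin N → Po N k))

/-- homogenization -/
noncomputable def hmf (d : ℕ) (p : Po N k) : Po (N + 2) k :=
  ∑ t ∈ Finset.range (p.totalDegree + 1),
    X 1 ^ (d - t) * rename (fun i : Fin N => i.succ.succ) (homogeneousComponent t p)

theorem hmf_hom {d : ℕ} {p : Po N k} (hd : p.totalDegree ≤ d) : (hmf d p).IsHomogeneous d := by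
  refine IsHomogeneous.sum _ _ _ fun t ht => ?_
  have h1 : t ≤ d := (Nat.lt_succ_iff.1 (Finset.mem_range.1 ht)).trans hd
  have h2 : (X 1 ^ (d - t) : Po (N + 2) k).IsHomogeneous (d - t) := by
    have := (isHomogeneous_X k (1 : Fin (N + 2))).pow (d - t)
    rwa [one_mul] at this
  have h3 := h2.mul ((homogeneousComponent_isHomogeneous t p).rename_isHomogeneous
    (f := fun i : Fin N => i.succ.succ))
  rwa [Nat.sub_add_cancel h1] at h3

theorem hmf_aeval {A : Type} [CommRing A] [Algebra k A] (d : ℕ) (p : Po N k)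
    {x : Fin (N + 2) → A} (h1 : x 1 = 1) :
    aeval x (hmf d p) = aeval (fun i => x i.succ.succ) p := by
  unfold hmf
  rw [map_sum]
  conv_rhs => rw [← sum_homogeneousComponent p]
  rw [map_sum]
  refine Finset.sum_congr rfl fun t _ => ?_
  rw [map_mul, map_pow, aeval_X, h1, one_pow, one_mul, aeval_rename]
  rfl

theorem hmf_eval (d : ℕ) (p : Po N k) {x : Fin (N + 2) → k} (h1 : x 1 = 1) :
    eval x (hmf d p) = eval (fun i => x i.succ.succ) p := by
  have h2 := hmf_aeval d p h1
  rwa [← coe_aeval_eq_eval, ← coe_aeval_eq_eval]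

theorem rsa_hmf (d : ℕ) (p : Po N k) : rsa (hmf d p) = p := by
  rw [rsa, hmf_aeval d p (apt_one _)]
  exact aeval_X_left_apply p

/-- the homogenized map -/
noncomputable def hmt (d : ℕ) (f : Tup N k) : Tup (N + 2) k :=
  Fin.cons 0 (Fin.cons (X 1 ^ d) fun i => hmf d (f i))

theorem hmt_hom {d : ℕ} {f : Tup N k} (hd : ∀ i, (f i).totalDegree ≤ d) (i : Fin (N + 2)) :
    (hmt d f i).IsHomogeneous d := by
  refine Fin.cases (isHomogeneous_zero _ _ _) (fun i => ?_) i
  refine Fin.cases ?_ (fun i => hmf_hom (hd i)) i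
  have := (isHomogeneous_X k (1 : Fin (N + 2))).pow d
  rwa [one_mul] at this

theorem pmap_hmt (d : ℕ) (f : Tup N k) (z : Fin N → k) :
    pmap (hmt d f) (apt z) = apt (pmap f z) := by
  funext i
  refine Fin.cases ?_ (fun i => ?_) i
  · exact map_zero (eval (apt z))
  · refine Fin.cases ?_ (fun i => ?_) i
    · change eval (apt z) (X 1 ^ d) = 1
      rw [map_pow, eval_X, apt_one, one_pow]
    · exact hmf_eval d (f i) (apt_one z)

theorem eval_aevalG {M L : ℕ} (x : Fin L → k) (g : Fin M → Po L k) (q : Po M k) :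
    eval x (aeval g q) = eval (fun i => eval x (g i)) q := by
  have h1 := comp_aeval g (aeval x : Po L k →ₐ[k] k)
  have h2 := DFunLike.congr_fun h1 q
  rw [AlgHom.comp_apply] at h2
  have h3 : (fun i => eval x (g i)) = fun i => aeval x (g i) := by
    funext i
    rw [← coe_aeval_eq_eval]
    rfl
  rw [h3, ← coe_aeval_eq_eval, ← coe_aeval_eq_eval]
  exact h2

theorem pmap_hmt_iter (d : ℕ) (f : Tup N k) (z : Fin N → k) (j : ℕ) :
    (pmap (hmt d f))^[j] (apt z) = apt ((pmap f)^[j] z) := by
  induction j with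
  | zero => rfl
  | succ j ih => rw [Function.iterate_succ_apply', ih, pmap_hmt, Function.iterate_succ_apply']

theorem rsa_comp (d : ℕ) (f : Tup N k) (q : Po (N + 2) k) :
    rsa (aeval (hmt d f) q) = aeval f (rsa q) := by
  have h1 : (rsa (N := N) (k := k)).comp (aeval (hmt d f)) = (aeval f).comp rsa := by
    apply MvPolynomial.algHom_ext
    intro i
    rw [AlgHom.comp_apply, AlgHom.comp_apply, aeval_X]
    refine Fin.cases ?_ (fun i => ?_) i
    · change rsa (0 : Po (N + 2) k) = aeval f (rsa (X 0))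
      rw [map_zero, rsa, aeval_X, apt_zero, map_zero]
    · refine Fin.cases ?_ (fun i => ?_) i
      · change rsa (X 1 ^ d : Po (N + 2) k) = aeval f (rsa (X 1))
        rw [map_pow, rsa, aeval_X, apt_one, one_pow, map_one]
      · change rsa (hmf d (f i)) = aeval f (rsa (X i.succ.succ))
        rw [rsa_hmf, rsa, aeval_X, apt_ss, aeval_X]
  exact DFunLike.congr_fun h1 q

theorem rsa_X0 : rsa (X 0 : Po (N + 2) k) = 0 := by
  rw [rsa, aeval_X, apt_zero]

theorem eval_rsa (z : Fin N → k) (q : Po (N + 2) k) : eval z (rsa q) = eval (apt z) q := by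
  rw [rsa, eval_aevalG]
  congr 2
  funext i
  refine Fin.cases (map_zero _) (fun i => ?_) i
  refine Fin.cases (map_one _) (fun i => eval_X i) i

/-- the forms which vanish on the affine space -/
theorem rsa_eq_zero [Infinite k] {q : Po (N + 2) k} {s : ℕ} (hq : q.IsHomogeneous s) :
    rsa q = 0 ↔ X 0 ∣ q := by
  constructor
  · intro h
    obtain ⟨g, hg⟩ : ∃ g : Po (N + 1) k, g = aeval (Fin.cons 0 X : Fin (N + 2) → Po (N + 1) k) q :=
      ⟨_, rfl⟩
    have hev : ∀ y : Fin (N + 1) → k, eval y g = eval (Fin.cons 0 y : Fin (N + 2) → k) q := by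
      intro y
      rw [hg, eval_aevalG]
      congr 2
      funext i
      refine Fin.cases (map_zero _) (fun i => eval_X i) i
    have h1 : (X 0 : Po (N + 1) k) * g = 0 := by
      apply MvPolynomial.funext
      intro y
      rw [map_mul, eval_X, map_zero, hev]
      by_cases hy : y 0 = 0
      · rw [hy, zero_mul]
      · have h2 : (Fin.cons 0 y : Fin (N + 2) → k) =
            fun i => y 0 * apt (fun i : Fin N => y i.succ / y 0) i := by
          funext i
          refine Fin.cases ?_ (fun i => ?_) i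
          · rw [apt_zero, mul_zero]
            rfl
          · refine Fin.cases ?_ (fun i => ?_) i
            · change y 0 = y 0 * 1
              rw [mul_one]
            · change y i.succ = y 0 * (y i.succ / y 0)
              field_simp
        rw [h2, Pool.Agent.H8.TD.eval_smul hq, ← eval_rsa, h, map_zero, mul_zero, mul_zero]
    have h2 : g = 0 := (mul_eq_zero.1 h1).resolve_left (X_ne_zero 0)
    have h3 : (finSuccEquiv k (N + 1) q).coeff 0 = 0 := by
      rw [← h2, hg]
      rw [Polynomial.coeff_zero_eq_eval_zero]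
      have h4 : (aeval (Fin.cons 0 X : Fin (N + 2) → Po (N + 1) k) : Po (N + 2) k →ₐ[k] _) =
          ((Polynomial.aeval (0 : Po (N + 1) k)).restrictScalars k).comp
            (finSuccEquiv k (N + 1)).toAlgHom := by
        apply MvPolynomial.algHom_ext
        intro i
        rw [aeval_X]
        refine Fin.cases ?_ (fun i => ?_) i
        · simp [finSuccEquiv_X_zero]
        · simp [finSuccEquiv_X_succ]
      rw [h4]
      simp [Polynomial.coe_aeval_eq_eval]
    rw [← map_dvd_iff (finSuccEquiv k (N + 1)), finSuccEquiv_X_zero, Polynomial.X_dvd_iff]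
    exact h3
  · rintro ⟨c, rfl⟩
    rw [map_mul, rsa_X0, zero_mul]

/-! ## Linear forms -/

theorem lin_form {L : ℕ} {p : Po L k} (hp : p.IsHomogeneous 1) :
    ∃ s : Fin L → k, p = ∑ j, C (s j) * X j := by
  classical
  refine ⟨fun j => coeff (Finsupp.single j 1) p, ?_⟩
  ext m
  rw [coeff_sum]
  by_cases h : ∃ j, m = Finsupp.single j 1
  · obtain ⟨j, rfl⟩ := h
    rw [Finset.sum_eq_single j]
    · rw [coeff_C_mul, coeff_X, if_pos rfl, mul_one]
    · intro i _ hij
      rw [coeff_C_mul, coeff_X, if_neg, mul_zero]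
      intro h
      apply hij
      have := Finsupp.single_left_injective (one_ne_zero) h
      exact this
    · intro h
      exact absurd (Finset.mem_univ j) h
  · push Not at h
    rw [Finset.sum_eq_zero]
    · by_contra hc
      have h1 := hp hc
      rw [Finsupp.weight_apply, Finsupp.sum_fintype _ _ (fun i => by simp)] at h1
      have h2 : ∑ i, m i = 1 := by simpa using h1
      obtain ⟨j, hj⟩ : ∃ j, m j ≠ 0 := by
        by_contra hcon
        push Not at hcon
        rw [Finset.sum_eq_zero fun i _ => hcon i] at h2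
        exact zero_ne_one h2
      have h3 := Finset.add_sum_erase Finset.univ (fun i => m i) (Finset.mem_univ j)
      rw [h2] at h3
      have h4 : ∑ i ∈ Finset.univ.erase j, m i = 0 := by omega
      apply h j
      ext i
      by_cases hi : i = j
      · rw [hi, Finsupp.single_eq_same]
        omega
      · rw [Finsupp.single_eq_of_ne (by exact hi)]
        exact (Finset.sum_eq_zero_iff.1 h4) i (Finset.mem_erase.2 ⟨hi, Finset.mem_univ _⟩)
    · intro j _
      rw [coeff_C_mul, coeff_X, if_neg (fun h' => h j h'.symm), mul_zero]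

/-- a linear form on the hyperplane -/
noncomputable def plf (s : Fin (N + 2) → k) : Po (N + 2) k := ∑ j, C (s j) * X j

theorem plf_hom (s : Fin (N + 2) → k) : (plf s).IsHomogeneous 1 := by
  refine IsHomogeneous.sum _ _ _ fun j _ => ?_
  have h1 := (isHomogeneous_C (Fin (N + 2)) (s j)).mul (isHomogeneous_X k j)
  rwa [Nat.zero_add] at h1

theorem plf_aeval {K : Type} [Field K] [Algebra k K] (s : Fin (N + 2) → k)
    (ξ : Fin (N + 2) → K) : aeval ξ (plf s) = lc s ξ := by
  rw [plf, map_sum]
  refine Finset.sum_congr rfl fun j _ => ?_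
  rw [map_mul, aeval_X, aeval_C, Algebra.smul_def]

theorem rsa_plf_deg (s : Fin (N + 2) → k) : (rsa (plf s)).totalDegree ≤ 1 := by
  rw [plf, map_sum]
  refine (totalDegree_finsetSum _ _).trans (Finset.sup_le fun j _ => ?_)
  rw [map_mul, rsa, aeval_C, aeval_X]
  refine (totalDegree_mul _ _).trans ?_
  have h1 : (algebraMap k (Po N k) (s j)).totalDegree = 0 := totalDegree_C _
  rw [h1, zero_add]
  refine Fin.cases ?_ (fun j => ?_) j
  · rw [apt_zero, totalDegree_zero]
    exact Nat.zero_le 1
  · refine Fin.cases ?_ (fun j => ?_) j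
    · change (1 : Po N k).totalDegree ≤ 1
      rw [totalDegree_one]
      exact Nat.zero_le 1
    · rw [apt_ss]
      rw [totalDegree_X]

theorem exists_plf {a : Po N k} (ha : a.totalDegree ≤ 1) : ∃ s : Fin (N + 2) → k,
    hmf 1 a = plf s := lin_form (hmf_hom ha)

/-! ## The ideal of the hyperplane -/

/-- the ideal of the hyperplane -/
noncomputable def I0 (N : ℕ) (k : Type) [Field k] : Ideal (Po (N + 2) k) := Ideal.span {X 0}

theorem mem_I0 {q : Po (N + 2) k} : q ∈ I0 N k ↔ X 0 ∣ q := Ideal.mem_span_singleton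

theorem hyp0 : Hyp (X 0 : Po (N + 2) k) 1 := by
  refine ⟨isHomogeneous_X k 0, ?_, X_prime.irreducible⟩
  rw [Mny, finSuccEquiv_X_zero]
  exact Polynomial.monic_X

theorem zer_I0 {x : Fin (N + 2) → k} : Zer (I0 N k) x ↔ x 0 = 0 := by
  constructor
  · intro h
    have h1 := h (X 0) (mem_I0.2 dvd_rfl)
    rwa [eval_X] at h1
  · intro h q hq
    obtain ⟨c, rfl⟩ := mem_I0.1 hq
    rw [map_mul, eval_X, h, zero_mul]

theorem I0_hom (c : Po (N + 2) k) (hc : c ∈ I0 N k) (t : ℕ) :
    homogeneousComponent t c ∈ I0 N k := by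
  obtain ⟨q, rfl⟩ := mem_I0.1 hc
  rw [mem_I0, mul_comm]
  rcases t with _ | t
  · rw [homogeneousComponent_zero]
    have h1 : coeff 0 (q * X 0 : Po (N + 2) k) = 0 := by
      classical
      rw [coeff_mul_X', if_neg (by simp)]
    rw [h1, C_0]
    exact dvd_zero _
  · rw [← sum_homogeneousComponent q, Finset.sum_mul, map_sum]
    refine Finset.dvd_sum fun i _ => ?_
    have h1 : (homogeneousComponent i q * X 0).IsHomogeneous (i + 1) :=
      (homogeneousComponent_isHomogeneous i q).mul (isHomogeneous_X k 0)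
    rw [homogeneousComponent_of_mem h1]
    split_ifs
    · exact Dvd.intro_left _ rfl
    · exact dvd_zero _

theorem I0_prime : (I0 N k).IsPrime := isPrime_span (P := (X 0 : Po (N + 2) k)) hyp0.irr

section map

variable {d : ℕ} {f : Tup N k}

theorem hmt_inv (c : Po (N + 2) k) (hc : c ∈ I0 N k) : aeval (hmt d f) c ∈ I0 N k := by
  obtain ⟨q, rfl⟩ := mem_I0.1 hc
  rw [map_mul, aeval_X]
  change (0 : Po (N + 2) k) * _ ∈ _
  rw [zero_mul]
  exact Ideal.zero_mem _

theorem hmt_slf [Infinite k] (hd : 1 ≤ d) (hf : ∀ i, (f i).totalDegree ≤ d)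
    (hdom : ∀ q : Po N k, aeval f q = 0 → q = 0) : Slf (I0 N k) (hmt d f) := by
  refine slf_of_forms I0_hom hd (hmt_hom hf) hmt_inv fun s q hq h => ?_
  have h1 : rsa (aeval (hmt d f) q) = 0 := (rsa_eq_zero (aeval_hom (hmt_hom hf) hq)).2 (mem_I0.1 h)
  rw [rsa_comp] at h1
  exact mem_I0.2 ((rsa_eq_zero hq).1 (hdom _ h1))

theorem hmt_niv [Infinite k] (hf : ∀ i, (f i).totalDegree ≤ d)
    (hinv : ¬ ∃ p q : Po N k, q ≠ 0 ∧ (∀ s : k, p ≠ C s * q) ∧ aeval f p * q = aeval f q * p) :
    NIv (X 0 : Po (N + 2) k) (hmt d f) := by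
  intro m A B hA hB hPB hAB
  have h1 : rsa (aeval (hmt d f) A * B - aeval (hmt d f) B * A) = 0 := by
    obtain ⟨c, hc⟩ := hAB
    rw [hc, map_mul, rsa_X0, zero_mul]
  rw [map_sub, map_mul, map_mul, rsa_comp, rsa_comp, sub_eq_zero] at h1
  have h2 : rsa B ≠ 0 := fun h => hPB ((rsa_eq_zero hB).1 h)
  by_contra hcon
  push Not at hcon
  apply hinv
  refine ⟨rsa A, rsa B, h2, fun s hs => hcon s ?_, h1⟩
  have h3 : (A - C s * B).IsHomogeneous m := by
    refine hA.sub ?_
    have := (isHomogeneous_C (Fin (N + 2)) s).mul hB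
    rwa [Nat.zero_add] at this
  rw [← rsa_eq_zero h3, map_sub, map_mul, hs]
  have h4 : rsa (C s : Po (N + 2) k) = C s := aeval_C _ _
  rw [h4, sub_self]

end map

end

end Pool.Agent.H2.EDF
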