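import Pool.Agent.H8.EDA.Fin
import Pool.Agent.H8.TX.All

/-!
# The degree of the extension of the function fields and the number of preimages
-/

set_option autoImplicit false

open MvPolynomial
open Pool.Agent.H12.ZD (pmap)
open Pool.Agent.H18.HIT Pool.Agent.H18.HX Pool.Agent.H18.VZ
open Pool.Agent.H8.ZA (HFam Const NA)
open Pool.Agent.H8.TD (lc dg Wsp Cop dh)
open Pool.Agent.H8.TX (Upv)
open Pool.Agent.H2.ED

namespace Pool.Agent.H2.EDF

theorem dgy_scale {ι k A : Type} [Field k] [CommRing A] [Algebra k A] (P : MvPolynomial ι k)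
    (e : ℕ) (hP : P.IsHomogeneous e) (c : A) (x : ι → A) :
    aeval (fun i => c * x i) P = c ^ e * aeval x P := by
  rw [aeval_def, aeval_def, eval₂_eq, eval₂_eq, Finset.mul_sum]
  refine Finset.sum_congr rfl fun m hm => ?_
  have h1 : ∑ i ∈ m.support, m i = e := by
    have h := hP (mem_support_iff.1 hm)
    rw [Finsupp.weight_apply, Finsupp.sum] at h
    simpa using h
  rw [← h1, ← Finset.prod_pow_eq_pow_sum]
  have h2 : ∏ i ∈ m.support, (c * x i) ^ m i = (∏ i ∈ m.support, c ^ m i) *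
      ∏ i ∈ m.support, x i ^ m i := by
    rw [← Finset.prod_mul_distrib]
    exact Finset.prod_congr rfl fun i _ => mul_pow _ _ _
  rw [h2]
  ring

section

variable {ν : ℕ} {k K : Type} [Field k] [Field K] [Algebra k K]

/-- the homogeneous coordinates with a parameter -/
noncomputable def jp (k : Type) {ν : ℕ} {K : Type} [Field k] [Field K] [Algebra k K] (ξ : Fin (ν + 2) → K) :
    Po (ν + 2) k →ₐ[k] Polynomial K := aeval fun i => Polynomial.X * Polynomial.C (ξ i)

theorem jp_hom (ξ : Fin (ν + 2) → K) (q : Po (ν + 2) k) (t : ℕ) (hq : q.IsHomogeneous t) :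
    jp k ξ q = Polynomial.X ^ t * Polynomial.C (aeval ξ q) := by
  unfold jp
  rw [dgy_scale q t hq]
  congr 1
  have h1 : (aeval (fun i => Polynomial.C (ξ i)) : Po (ν + 2) k →ₐ[k] Polynomial K) =
      (Polynomial.CAlgHom (R := k) (A := K)).comp (aeval ξ) := by
    apply MvPolynomial.algHom_ext
    intro i
    rw [aeval_X, AlgHom.comp_apply, aeval_X]
    rfl
  rw [h1]
  rfl

theorem jp_coeff (ξ : Fin (ν + 2) → K) (q : Po (ν + 2) k) (t : ℕ) (ht : t ≤ q.totalDegree) :
    (jp k ξ q).coeff t = aeval ξ (homogeneousComponent t q) := by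
  conv_lhs => rw [← sum_homogeneousComponent q]
  rw [map_sum, Polynomial.finsetSum_coeff, Finset.sum_eq_single t]
  · rw [jp_hom ξ _ t (homogeneousComponent_isHomogeneous t q), Polynomial.coeff_X_pow_mul',
      if_pos le_rfl, Nat.sub_self, Polynomial.coeff_C_zero]
  · intro s _ hs
    rw [jp_hom ξ _ s (homogeneousComponent_isHomogeneous s q), Polynomial.coeff_mul_C,
      Polynomial.coeff_X_pow, if_neg (Ne.symm hs), zero_mul]
  · intro h
    exact absurd (Finset.mem_range.2 (Nat.lt_succ_of_le ht)) h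

theorem jp_zero (P : Po (ν + 2) k) (r : ℕ) (hP : P.IsHomogeneous r) (ξ : Fin (ν + 2) → K) (h : Gp P ξ)
    (q : Po (ν + 2) k) : jp k ξ q = 0 ↔ P ∣ q := by
  constructor
  · intro h0
    rw [← sum_homogeneousComponent q]
    refine Finset.dvd_sum fun t ht => ?_
    rw [← h.iff t _ (homogeneousComponent_isHomogeneous t q),
      ← jp_coeff ξ q t (Nat.lt_succ_iff.1 (Finset.mem_range.1 ht)), h0, Polynomial.coeff_zero]
  · rintro ⟨u, rfl⟩
    rw [map_mul, jp_hom ξ P r hP, (h.iff r P hP).2 dvd_rfl, Polynomial.C_0, mul_zero, zero_mul]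

/-- the field of rational functions in one variable over `K` -/
abbrev LL (K : Type) [Field K] : Type := FractionRing (Polynomial K)

/-- the coordinates in the field -/
noncomputable def jL (k : Type) {ν : ℕ} {K : Type} [Field k] [Field K] [Algebra k K] (ξ : Fin (ν + 2) → K) :
    Po (ν + 2) k →ₐ[k] LL K := (IsScalarTower.toAlgHom k (Polynomial K) (LL K)).comp (jp k ξ)

theorem jL_apply (ξ : Fin (ν + 2) → K) (q : Po (ν + 2) k) :
    jL k ξ q = algebraMap (Polynomial K) (LL K) (jp k ξ q) := rfl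

theorem jL_zero (P : Po (ν + 2) k) (r : ℕ) (hP : P.IsHomogeneous r) (ξ : Fin (ν + 2) → K) (h : Gp P ξ)
    (q : Po (ν + 2) k) : jL k ξ q = 0 ↔ P ∣ q := by
  rw [jL_apply, map_eq_zero_iff _ (IsFractionRing.injective (Polynomial K) (LL K)),
    jp_zero P r hP ξ h]

/-- the substitution `X ↦ w X ^ d` and `τ` on the coefficients -/
noncomputable def ps (τ : K →ₐ[k] K) (w : K) (d : ℕ) : Polynomial K →ₐ[k] Polynomial K where
  toRingHom := Polynomial.eval₂RingHom (Polynomial.C.comp (τ : K →+* K))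
    (Polynomial.C w * Polynomial.X ^ d)
  commutes' := by
    intro c
    show Polynomial.eval₂ _ _ (algebraMap k (Polynomial K) c) = _
    rw [Polynomial.algebraMap_apply, Polynomial.eval₂_C]
    show Polynomial.C (τ (algebraMap k K c)) = _
    rw [τ.commutes]

theorem ps_C (τ : K →ₐ[k] K) (w : K) (d : ℕ) (x : K) :
    ps τ w d (Polynomial.C x) = Polynomial.C (τ x) := by
  show Polynomial.eval₂ _ _ (Polynomial.C x) = _
  rw [Polynomial.eval₂_C]
  rfl

theorem ps_X (τ : K →ₐ[k] K) (w : K) (d : ℕ) :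
    ps τ w d Polynomial.X = Polynomial.C w * Polynomial.X ^ d := by
  show Polynomial.eval₂ _ _ Polynomial.X = _
  rw [Polynomial.eval₂_X]

theorem ps_inj (τ : K →ₐ[k] K) (w : K) (d : ℕ) (hd : 1 ≤ d) (hw : w ≠ 0) :
    Function.Injective (ps τ w d) := by
  rw [injective_iff_map_eq_zero]
  intro f hf
  have h1 : ps τ w d f = (f.map (τ : K →+* K)).comp (Polynomial.C w * Polynomial.X ^ d) := by
    show Polynomial.eval₂ _ _ f = _
    rw [Polynomial.comp, Polynomial.eval₂_map]
  rw [h1, Polynomial.comp_eq_zero_iff] at hf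
  rcases hf with hf | ⟨-, hf⟩
  · exact (Polynomial.map_eq_zero_iff τ.injective).1 hf
  · exfalso
    have h2 : (Polynomial.C w * Polynomial.X ^ d : Polynomial K).coeff 0 = 0 := by
      rw [Polynomial.coeff_C_mul, Polynomial.coeff_X_pow, if_neg (by omega), mul_zero]
    rw [h2, Polynomial.C_0] at hf
    exact mul_ne_zero (Polynomial.C_ne_zero.2 hw) (pow_ne_zero _ Polynomial.X_ne_zero) hf

end

theorem dgyG {ν r d E : ℕ} {k K : Type} [Field k] [CharZero k] [Field K] [Algebra k K]
    {P θ Δ : Po (ν + 2) k} {F : Tup (ν + 2) k} {ξ : Fin (ν + 2) → K} {τ : K →ₐ[k] K}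
    (hP : Hyp P r) (hd : 1 ≤ d) (hF : ∀ i, (F i).IsHomogeneous d) (hS : Slf (Ideal.span {P}) F)
    (hB : Bas P F E θ Δ) (hFd : Fd P F ξ τ) :
    FiniteDimensional τ.fieldRange K ∧ d * Module.finrank τ.fieldRange K ≤ E := by
  classical
  have hg : Gp P ξ := hFd.gp
  -- the denominator
  obtain ⟨w, hwd⟩ : ∃ w : K, w = aeval ξ (F 1) := ⟨_, rfl⟩
  have hw : w ≠ 0 := by
    intro h0
    have h1 : P ∣ F 1 := (hg.iff d (F 1) (hF 1)).1 (by rw [← hwd, h0])
    have h2 : (X 1 : Po (ν + 2) k) ∈ Ideal.span {P} := hS.inj (X 1) (by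
      rw [aeval_X, Ideal.mem_span_singleton]
      exact h1)
    rw [Ideal.mem_span_singleton, ← hg.iff 1 _ (isHomogeneous_X k 1), aeval_X, hg.one] at h2
    exact one_ne_zero h2
  have hinjL : Function.Injective ((IsScalarTower.toAlgHom k (Polynomial K) (LL K)).comp
      (ps τ w d)) := by
    rw [AlgHom.coe_comp]
    exact (IsFractionRing.injective (Polynomial K) (LL K)).comp (ps_inj τ w d hd hw)
  obtain ⟨τL, hτa⟩ : ∃ τL : LL K →ₐ[k] LL K, ∀ f : Polynomial K,
      τL (algebraMap (Polynomial K) (LL K) f) = algebraMap (Polynomial K) (LL K) (ps τ w d f) :=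
    ⟨IsFractionRing.liftAlgHom hinjL, fun f => IsFractionRing.lift_algebraMap hinjL f⟩
  have halg : ∀ x : K, algebraMap K (LL K) x =
      algebraMap (Polynomial K) (LL K) (Polynomial.C x) := fun x =>
    IsScalarTower.algebraMap_apply K (Polynomial K) (LL K) x
  obtain ⟨s, hsd⟩ : ∃ s : LL K, s = algebraMap (Polynomial K) (LL K) Polynomial.X := ⟨_, rfl⟩
  have hs0 : s ≠ 0 := by
    rw [hsd, Ne, map_eq_zero_iff _ (IsFractionRing.injective (Polynomial K) (LL K))]
    exact Polynomial.X_ne_zero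
  have hcomp : ∀ x : K, τL (algebraMap K (LL K) x) = algebraMap K (LL K) (τ x) := by
    intro x
    rw [halg, halg, hτa, ps_C]
  have hs : τL s = s ^ d * algebraMap K (LL K) w := by
    rw [hsd, hτa, ps_X, map_mul, map_pow, halg, mul_comm]
  have htr : Transcendental K s := by
    rw [hsd, transcendental_algebraMap_iff (IsFractionRing.injective (Polynomial K) (LL K))]
    exact Polynomial.transcendental_X K
  have hjX : ∀ i, jL k ξ (X i) = s * algebraMap K (LL K) (ξ i) := by
    intro i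
    rw [jL_apply, jp, aeval_X, map_mul, ← halg, hsd]
  have hgen : IntermediateField.adjoin K {s} = ⊤ := by
    rw [eq_top_iff]
    intro x _
    have hs1 : s ∈ IntermediateField.adjoin K {s} :=
      IntermediateField.subset_adjoin K {s} (Set.mem_singleton s)
    have hall : ∀ q : Polynomial K, algebraMap (Polynomial K) (LL K) q ∈
        IntermediateField.adjoin K {s} := by
      intro q
      induction q using Polynomial.induction_on with
      | C a => rw [← halg]; exact IntermediateField.algebraMap_mem _ _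
      | add p q hp hq => rw [map_add]; exact add_mem hp hq
      | monomial n a _ =>
        rw [map_mul, map_pow, ← halg, ← hsd]
        exact mul_mem (IntermediateField.algebraMap_mem _ _) (pow_mem hs1 _)
    obtain ⟨a, b, hb, rfl⟩ := IsFractionRing.div_surjective (A := Polynomial K) x
    exact div_mem (hall a) (hall b)
  -- compatibility with the map
  have hjF : ∀ q : Po (ν + 2) k, jL k ξ (aeval F q) = τL (jL k ξ q) := by
    have h1 : (jL k ξ).comp (aeval F : Po (ν + 2) k →ₐ[k] Po (ν + 2) k) = τL.comp (jL k ξ) := by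
      apply MvPolynomial.algHom_ext
      intro i
      rw [AlgHom.comp_apply, AlgHom.comp_apply, aeval_X, hjX, map_mul, hs, hcomp, jL_apply,
        jp_hom ξ (F i) d (hF i), map_mul, map_pow, ← halg, ← hsd, ← hFd.eq i, ← hwd, map_mul]
      ring
    intro q
    exact congrArg (fun f : Po (ν + 2) k →ₐ[k] LL K => f q) h1
  have hΔ : jL k ξ Δ ≠ 0 := by
    rw [Ne, jL_zero P r hP.hom ξ hg]
    exact hB.ne
  -- the span
  obtain ⟨V, hV⟩ : ∃ V : Submodule τL.fieldRange (LL K), V = Submodule.span τL.fieldRange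
      (Set.range fun i : Fin E => jL k ξ θ ^ (i : ℕ)) := ⟨_, rfl⟩
  have hjV : ∀ u : Po (ν + 2) k, jL k ξ u ∈ V := by
    intro u
    obtain ⟨M, c, hc⟩ := hB.gen u
    have h1 := (jL_zero P r hP.hom ξ hg _).2 hc
    rw [map_sub, sub_eq_zero, map_mul, map_pow, hjF, map_sum] at h1
    have h2 : τL (jL k ξ Δ) ≠ 0 := fun h0 => hΔ ((map_eq_zero τL).1 h0)
    have h3 : jL k ξ u = ∑ i : Fin E, τL (jL k ξ (c i) / jL k ξ Δ ^ M) * jL k ξ θ ^ (i : ℕ) := by
      have h4 : jL k ξ u = (∑ i : Fin E, jL k ξ (θ ^ (i : ℕ) * aeval F (c i))) /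
          τL (jL k ξ Δ) ^ M := by
        rw [← h1]
        field_simp
      rw [h4, Finset.sum_div]
      refine Finset.sum_congr rfl fun i _ => ?_
      rw [map_mul, map_pow, hjF, map_div₀, map_pow]
      ring
    rw [h3, hV]
    refine Submodule.sum_mem _ fun i _ => ?_
    have h5 : τL (jL k ξ (c i) / jL k ξ Δ ^ M) * jL k ξ θ ^ (i : ℕ) =
        (⟨τL (jL k ξ (c i) / jL k ξ Δ ^ M), ⟨_, rfl⟩⟩ : τL.fieldRange) •
          (jL k ξ θ ^ (i : ℕ)) := rfl
    rw [h5]
    exact Submodule.smul_mem _ _ (Submodule.subset_span ⟨i, rfl⟩)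
  obtain ⟨S, hSd⟩ : ∃ S : Subalgebra τL.fieldRange (LL K),
      S = Algebra.adjoin τL.fieldRange (Set.range (jL k ξ)) := ⟨_, rfl⟩
  have hSV : Subalgebra.toSubmodule S ≤ V := by
    rw [hSd, Algebra.adjoin_eq_span, Submodule.span_le]
    intro x hx
    have h1 : Submonoid.closure (Set.range (jL k ξ)) ≤
        MonoidHom.mrange ((jL k ξ : Po (ν + 2) k →+* LL K) : Po (ν + 2) k →* LL K) := by
      rw [Submonoid.closure_le]
      rintro _ ⟨u, rfl⟩
      exact ⟨u, rfl⟩
    obtain ⟨u, rfl⟩ := h1 hx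
    exact hjV u
  have hVfd : FiniteDimensional τL.fieldRange V := by
    rw [hV]
    exact FiniteDimensional.span_of_finite _ (Set.finite_range _)
  have hSfd : FiniteDimensional τL.fieldRange (Subalgebra.toSubmodule S) :=
    Submodule.finiteDimensional_of_le hSV
  have hSalg : ∀ x ∈ S, IsAlgebraic τL.fieldRange x := by
    intro x hx
    have h1 : Module.Finite τL.fieldRange S := hSfd
    have h2 : IsIntegral τL.fieldRange (⟨x, hx⟩ : S) := Algebra.IsIntegral.isIntegral _
    exact (h2.map S.val).isAlgebraic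
  have hSinv : ∀ x ∈ S, x⁻¹ ∈ S := fun x hx =>
    Subalgebra.inv_mem_of_algebraic (A := S) (x := ⟨x, hx⟩) (hSalg x hx)
  have hjS : ∀ u, jL k ξ u ∈ S := fun u => by
    rw [hSd]
    exact Algebra.subset_adjoin ⟨u, rfl⟩
  have hsS : s ∈ S := by
    have h1 := hjS (X 1)
    rw [hjX, hg.one, map_one, mul_one] at h1
    exact h1
  have hKS : ∀ x : K, algebraMap K (LL K) x ∈ S := by
    intro x
    have hx : x ∈ IntermediateField.adjoin k (Set.range ξ) := by rw [hg.top]; trivial
    induction hx using IntermediateField.adjoin_induction with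
    | mem x hx =>
      obtain ⟨i, rfl⟩ := hx
      have h1 : algebraMap K (LL K) (ξ i) = jL k ξ (X i) * s⁻¹ := by
        rw [hjX]
        field_simp
      rw [h1]
      exact mul_mem (hjS _) (hSinv s hsS)
    | algebraMap c =>
      have h1 : algebraMap K (LL K) (algebraMap k K c) = jL k ξ (algebraMap k (Po (ν + 2) k) c) := by
        rw [AlgHom.commutes]
        exact (IsScalarTower.algebraMap_apply k K (LL K) c).symm
      rw [h1]
      exact hjS _
    | add x y _ _ hx hy => rw [map_add]; exact add_mem hx hy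
    | inv x _ hx => rw [map_inv₀]; exact hSinv _ hx
    | mul x y _ _ hx hy => rw [map_mul]; exact mul_mem hx hy
  have hall : ∀ x : LL K, x ∈ S := by
    intro x
    have h1 : ∀ q : Polynomial K, algebraMap (Polynomial K) (LL K) q ∈ S := by
      intro q
      induction q using Polynomial.induction_on with
      | C a => rw [← halg]; exact hKS a
      | add p q hp hq => rw [map_add]; exact add_mem hp hq
      | monomial n a _ =>
        rw [map_mul, map_pow, ← halg, ← hsd]
        exact mul_mem (hKS a) (pow_mem hsS _)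
    obtain ⟨a, b, hb, rfl⟩ := IsFractionRing.div_surjective (A := Polynomial K) x
    rw [div_eq_mul_inv]
    exact mul_mem (h1 a) (hSinv _ (h1 b))
  have hVtop : V = ⊤ := by
    rw [eq_top_iff]
    intro x _
    exact hSV (hall x)
  have hfd : FiniteDimensional τL.fieldRange (LL K) := by
    rw [hVtop] at hVfd
    exact Module.Finite.of_surjective (Submodule.topEquiv (R := τL.fieldRange)
      (M := LL K)).toLinearMap (Submodule.topEquiv).surjective
  have hfr : Module.finrank τL.fieldRange (LL K) ≤ E := by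
    have h1 := finrank_range_le_card (R := τL.fieldRange) (fun i : Fin E => jL k ξ θ ^ (i : ℕ))
    rw [Set.finrank, ← hV, hVtop, finrank_top, Fintype.card_fin] at h1
    exact h1
  obtain ⟨hfK, hfin⟩ := Pool.Agent.H8.TD.Al.sl1 k K (LL K) τ τL s w d hd htr hgen hw hcomp hs hfd
  exact ⟨hfK, hfin.trans hfr⟩

/-- fewer preimages -/
theorem cvi_mono {L : ℕ} {k : Type} [Field k] {I : Ideal (Po L k)} {f : Tup L k} {e e' : ℕ}
    (h : Cvi I f e) (he : e' ≤ e) : Cvi I f e' := by
  obtain ⟨c, hc, h1⟩ := h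
  refine ⟨c, hc, fun y hy hyc => ?_⟩
  obtain ⟨S, hS, hS'⟩ := h1 y hy hyc
  obtain ⟨T, hT, hT'⟩ := Finset.exists_subset_card_eq (by rw [hS]; exact he : e' ≤ S.card)
  exact ⟨T, hT', fun x hx => hS' x (hT hx)⟩

/-- **the degree of the extension of the function fields**, from the number of the preimages -/
theorem upv_data {ν r d e : ℕ} {k K : Type} [Field k] [IsAlgClosed k] [CharZero k] [Field K]
    [Algebra k K] {P : Po (ν + 2) k} {F : Tup (ν + 2) k} {ξ : Fin (ν + 2) → K} {τ : K →ₐ[k] K}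
    (hP : Hyp P r) (hd : 1 ≤ d) (hF : ∀ i, (F i).IsHomogeneous d) (hS : Slf (Ideal.span {P}) F)
    (hU : Upv (Ideal.span {P}) F e) (hFd : Fd P F ξ τ) :
    1 ≤ Module.finrank τ.fieldRange K ∧ Module.finrank τ.fieldRange K ≤ e ∧
      Cvi (Ideal.span {P}) F (d * Module.finrank τ.fieldRange K) := by
  have hprime : (Ideal.span {P} : Ideal (Po (ν + 2) k)).IsPrime := isPrime_span hP.irr
  obtain ⟨E, θ, Δ, hB, hcv⟩ := Facts.bas (ν + 1) k P F hP.irr hP.mon hS
  obtain ⟨hfd, hle⟩ := dgyG hP hd hF hS hB hFd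
  have hX : ∃ i, (X i : Po (ν + 2) k) ∉ (Ideal.span {P} : Ideal (Po (ν + 2) k)) :=
    ⟨1, fun h => not_dvd_X1 hP (Ideal.mem_span_singleton.mp h)⟩
  have hE := Pool.Agent.H8.TX.Al.upx (ν + 2) d e 1 E k (Ideal.span {P}) F hd hF hS hX hU (by
    rw [it_one]
    exact hcv)
  rw [pow_one, pow_one] at hE
  exact ⟨Module.finrank_pos, Nat.le_of_mul_le_mul_left (hle.trans hE) hd, cvi_mono hcv hle⟩

end Pool.Agent.H2.EDF
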