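import Pool.Agent.H2.EDF.Aff
import Pool.Agent.H2.EDF.Dgy

/-!
# Polynomial self-maps of affine space: preimages, orbits and degrees
-/

set_option autoImplicit false

open MvPolynomial
open Pool.Agent.H12.ZD (pmap)
open Pool.Agent.H18.HIT Pool.Agent.H18.HX Pool.Agent.H18.VZ
open Pool.Agent.H8.TD (lc dg)
open Pool.Agent.H8.TX (Upv)
open Pool.Agent.H2.ED
open Pool.Agent.H18.EDB (dgm)

namespace Pool.Agent.H2.EDF

section

variable {N : ℕ} {k : Type} [Field k] {d : ℕ} {f : Tup N k}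

/-- affine coordinates -/
def acd (x : Fin (N + 2) → k) : Fin N → k := fun i => x i.succ.succ / x 1

theorem eq_scale {x : Fin (N + 2) → k} (h0 : x 0 = 0) (h1 : x 1 ≠ 0) :
    x = fun i => x 1 * apt (acd x) i := by
  funext i
  refine Fin.cases ?_ (fun i => ?_) i
  · rw [apt_zero, mul_zero, h0]
  · refine Fin.cases ?_ (fun i => ?_) i
    · change x 1 = x 1 * 1
      rw [mul_one]
    · rw [apt_ss, acd]
      field_simp

theorem pmap_scale (hf : ∀ i, (f i).totalDegree ≤ d) (t : k) (z : Fin N → k) :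
    pmap (hmt d f) (fun i => t * apt z i) = fun i => t ^ d * apt (pmap f z) i := by
  funext i
  have h1 : pmap (hmt d f) (fun i => t * apt z i) i = t ^ d * pmap (hmt d f) (apt z) i :=
    Pool.Agent.H8.TD.eval_smul (hmt_hom hf i) t (apt z)
  rw [h1, pmap_hmt]

theorem orbit_scale (hf : ∀ i, (f i).totalDegree ≤ d) {y : Fin (N + 2) → k} (h0 : y 0 = 0)
    (h1 : y 1 ≠ 0) (j : ℕ) : ∃ t : k, t ≠ 0 ∧
      (pmap (hmt d f))^[j] y = fun i => t * apt ((pmap f)^[j] (acd y)) i := by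
  induction j with
  | zero => exact ⟨y 1, h1, eq_scale h0 h1⟩
  | succ j ih =>
    obtain ⟨t, ht, h2⟩ := ih
    refine ⟨t ^ d, pow_ne_zero _ ht, ?_⟩
    rw [Function.iterate_succ_apply', h2, pmap_scale hf, Function.iterate_succ_apply']

theorem eval_hmf_scale {p : Po N k} {D : ℕ} (hp : p.totalDegree ≤ D) (t : k) (z : Fin N → k) :
    eval (fun i => t * apt z i) (hmf D p) = t ^ D * eval z p := by
  rw [Pool.Agent.H8.TD.eval_smul (hmf_hom hp), hmf_eval D p (apt_one z)]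
  rfl

/-- the test polynomial on the hyperplane -/
noncomputable def tst (b : Po N k) : Po (N + 2) k := X 1 * hmf b.totalDegree b

theorem tst_hom (b : Po N k) : (tst b).IsHomogeneous (1 + b.totalDegree) :=
  (isHomogeneous_X k 1).mul (hmf_hom le_rfl)

theorem rsa_tst (b : Po N k) : rsa (tst b) = b := by
  rw [tst, map_mul, rsa_hmf, rsa, aeval_X, apt_one, one_mul]

theorem tst_ndvd {b : Po N k} (hb : b ≠ 0) : ¬ X 0 ∣ tst b := by
  rintro ⟨c, hc⟩
  apply hb
  rw [← rsa_tst b, hc, map_mul, rsa_X0, zero_mul]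

theorem tst_eval {b : Po N k} {y : Fin (N + 2) → k} (h0 : y 0 = 0) (h : eval y (tst b) ≠ 0) :
    y 1 ≠ 0 ∧ eval (acd y) b ≠ 0 := by
  rw [tst, map_mul, eval_X] at h
  have h1 := left_ne_zero_of_mul h
  refine ⟨h1, fun h2 => right_ne_zero_of_mul h ?_⟩
  rw [eq_scale h0 h1, eval_hmf_scale le_rfl, h2, mul_zero]

/-- back to the affine space -/
theorem back (hf : ∀ i, (f i).totalDegree ≤ d) {b : Po N k} {y : Fin (N + 2) → k} (h0 : y 0 = 0)
    (hyb : ∀ j : ℕ, eval ((pmap (hmt d f))^[j] y) (tst b) ≠ 0)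
    (hyd : ∀ c : Po (N + 2) k, (∀ j : ℕ, eval ((pmap (hmt d f))^[j] y) c = 0) → X 0 ∣ c) :
    ∃ z : Fin N → k, (∀ j : ℕ, eval ((pmap f)^[j] z) b ≠ 0) ∧
      ∀ q : Po N k, (∀ j : ℕ, eval ((pmap f)^[j] z) q = 0) → q = 0 := by
  have h1 : y 1 ≠ 0 := (tst_eval h0 (hyb 0)).1
  refine ⟨acd y, fun j hj => ?_, fun q hq => ?_⟩
  · obtain ⟨t, ht, h2⟩ := orbit_scale hf h0 h1 j
    apply hyb j
    rw [tst, map_mul, h2, eval_hmf_scale le_rfl, hj, mul_zero, mul_zero]
  · obtain ⟨c, hc⟩ := hyd (hmf q.totalDegree q) fun j => by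
      obtain ⟨t, ht, h2⟩ := orbit_scale hf h0 h1 j
      rw [h2, eval_hmf_scale le_rfl, hq j, mul_zero]
    rw [← rsa_hmf q.totalDegree q, hc, map_mul, rsa_X0, zero_mul]

/-- the preimages in the cone -/
theorem hmt_cvi [IsAlgClosed k] [CharZero k] (hd : 1 ≤ d) (hf : ∀ i, (f i).totalDegree ≤ d)
    {e : ℕ} {c : Po N k} (hc : c ≠ 0)
    (he : ∀ y, eval y c ≠ 0 → ∃ S : Finset (Fin N → k), S.card = e ∧ ∀ x ∈ S, pmap f x = y) :
    Cvi (I0 N k) (hmt d f) (d * e) := by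
  classical
  refine ⟨tst c, fun h => tst_ndvd hc (mem_I0.1 h), fun y hy hyc => ?_⟩
  have h0 := zer_I0.1 hy
  obtain ⟨h1, h2⟩ := tst_eval h0 hyc
  obtain ⟨S, hS, hSf⟩ := he _ h2
  obtain ⟨R, hR, hRp⟩ := exists_nth_roots hd h1
  refine ⟨(R ×ˢ S).image fun p => fun i => p.1 * apt p.2 i, ?_, fun x hx => ?_⟩
  · rw [Finset.card_image_of_injOn, Finset.card_product, hR, hS]
    rintro ⟨t, z⟩ hz ⟨t', z'⟩ hz' heq
    have hz1 := (Finset.mem_product.1 hz).1
    have e1 : t = t' := by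
      have := congrFun heq 1
      simpa only [apt_one, mul_one] using this
    have ht : t ≠ 0 := by
      intro h
      have h3 := hRp t hz1
      rw [h, zero_pow (by omega)] at h3
      exact h1 h3.symm
    refine Prod.ext e1 (funext fun i => ?_)
    have := congrFun heq i.succ.succ
    simp only [apt_ss, ← e1] at this
    exact mul_left_cancel₀ ht this
  · obtain ⟨⟨t, z⟩, hz, rfl⟩ := Finset.mem_image.1 hx
    obtain ⟨hz1, hz2⟩ := Finset.mem_product.1 hz
    refine ⟨zer_I0.2 (by simp only [apt_zero, mul_zero]), ?_⟩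
    change pmap (hmt d f) (fun i => t * apt z i) = y
    rw [pmap_scale hf, hRp t hz1, hSf z hz2]
    exact (eq_scale h0 h1).symm

/-- at most `e` preimages up to proportionality -/
theorem hmt_upv (hd : 1 ≤ d) (hf : ∀ i, (f i).totalDegree ≤ d)
    {e : ℕ} {c : Po N k} (hc : c ≠ 0)
    (he : ∀ y, eval y c ≠ 0 → ∀ S : Finset (Fin N → k), (∀ x ∈ S, pmap f x = y) → S.card ≤ e) :
    Upv (I0 N k) (hmt d f) e := by
  classical
  refine ⟨tst c, fun h => tst_ndvd hc (mem_I0.1 h), fun y hy hyc S hS hprop => ?_⟩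
  have h0 := zer_I0.1 hy
  obtain ⟨h1, h2⟩ := tst_eval h0 hyc
  have hx1 : ∀ x ∈ S, x 0 = 0 ∧ x 1 ≠ 0 := by
    intro x hx
    obtain ⟨hx0, hxy⟩ := hS x hx
    refine ⟨zer_I0.1 hx0, fun h3 => h1 ?_⟩
    have h4 : pmap (hmt d f) x 1 = x 1 ^ d := by
      change eval x (X 1 ^ d) = _
      rw [map_pow, eval_X]
    rw [← hxy, h4, h3, zero_pow (by omega)]
  have hinj : Set.InjOn (acd (N := N) (k := k)) S := by
    intro x hx x' hx' heq
    obtain ⟨a0, a1⟩ := hx1 x hx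
    obtain ⟨b0, b1⟩ := hx1 x' hx'
    refine (hprop x hx x' hx' (x' 1 / x 1) fun i => ?_).symm
    have e1 := congrFun (eq_scale a0 a1) i
    have e2 := congrFun (eq_scale b0 b1) i
    rw [e1, e2, heq]
    field_simp
  rw [← Finset.card_image_of_injOn hinj]
  refine he _ h2 _ fun z hz => ?_
  obtain ⟨x, hx, rfl⟩ := Finset.mem_image.1 hz
  obtain ⟨a0, a1⟩ := hx1 x hx
  have h3 := (hS x hx).2
  rw [eq_scale a0 a1, pmap_scale hf] at h3
  have h4 : y 1 = x 1 ^ d := by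
    have := congrFun h3 1
    simp only [apt_one, mul_one] at this
    exact this.symm
  funext i
  have h5 := congrFun h3 i.succ.succ
  simp only [apt_ss] at h5
  rw [acd, ← h5, h4]
  have h6 : x 1 ^ d ≠ 0 := pow_ne_zero _ a1
  field_simp

end

end Pool.Agent.H2.EDF
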