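import Pool.Agent.H18.EDB.Bec
import Pool.Agent.H18.EDB.Orc
import Pool.Agent.H18.TXB.All
import Pool.Agent.H13.EDM.All
import Pool.Agent.H89.ED.JPR
import Pool.Agent.H2.EDV.All
import Pool.Agent.H1.EDB.EQN
import Pool.Agent.H16.EDB.TWR
import Pool.Agent.H52.EDB.TRE
import Pool.Agent.H52.EDB.FBV
import Pool.Agent.H42.EDB.HTN

/-!
# `λ_(ν - 1)` is larger than the topological degree and than `λ_(ν - 3)`: hypersurfaces
-/

set_option autoImplicit false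

namespace Pool.Agent.H2.EDF.Al

theorem orc : Pool.Agent.H18.EDB.T_ORC :=
  Pool.Agent.H18.EDB.pf_ORC Pool.Agent.H18.BKH.Al.fix Pool.Agent.H18.BKH.Al.eqd
    Pool.Agent.H18.BKH.Al.hln Pool.Agent.H18.TXB.Al.lfg Pool.Agent.H42.EDB.pf_HTN
    (Pool.Agent.H1.EDB.pf_EQN Pool.Agent.H42.EDB.pf_CHN) Pool.Agent.H18.TXB.Al.cob

/-- **the theorem for hypersurfaces** -/
theorem bet : Pool.Agent.H18.EDB.T_BET :=
  Pool.Agent.H18.EDB.pf_BEC (Pool.Agent.H89.ED.pf_JPR Pool.Agent.H2.ED.pf_FLD)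
    Pool.Agent.H18.TXB.Al.cnv Pool.Agent.H18.BKH.Al.gal Pool.Agent.H13.EDM.Al.nub orc
    Pool.Agent.H2.EDV.Al.vsb (Pool.Agent.H52.EDB.pf_TRE Pool.Agent.H52.EDB.pf_FBV)
    (Pool.Agent.H16.EDB.pf_TWR Pool.Agent.H18.BKH.Al.fix)

end Pool.Agent.H2.EDF.Al
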