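import Pool.Agent.H2.EDF.Aff2
import Pool.Agent.H2.EDF.Bet
import Pool.Agent.H8.EDA.All
import Pool.Agent.H8.EDA.Bet

/-!
# Polynomial self-maps of affine space: the degrees of the iterates
-/

set_option autoImplicit false

open MvPolynomial
open Pool.Agent.H12.ZD (pmap)
open Pool.Agent.H18.HIT Pool.Agent.H18.HX Pool.Agent.H18.VZ
open Pool.Agent.H8.TD (lc dg)
open Pool.Agent.H8.TX (Upv)
open Pool.Agent.H2.ED
open Pool.Agent.H18.EDB (dgm)

namespace Pool.Agent.H2.EDF

section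

variable {N : ℕ} {k : Type} [Field k] {d : ℕ} {f : Tup N k}

/-- the general fibres of `j` affine-linear functions at `f^m(x)` and `N - j` affine-linear
functions at `x` have at most `B` points -/
def Uat (f : Tup N k) (m j : ℕ) (B : ℝ) : Prop := ∀ s : Fin N → Po N k,
  (∀ i, (s i).totalDegree ≤ 1) → ∃ c : Po N k, c ≠ 0 ∧ ∀ t : Fin N → k, eval t c ≠ 0 →
    ∀ S : Finset (Fin N → k), (∀ x ∈ S, ∀ i : Fin N,
      ((i : ℕ) < j → eval ((pmap f)^[m] x) (s i) = t i) ∧
      (j ≤ (i : ℕ) → eval x (s i) = t i)) → (S.card : ℝ) ≤ B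

/-- for some affine-linear functions the general fibres have at least `B` points -/
def Lat (f : Tup N k) (m j : ℕ) (B : ℝ) : Prop := ∃ (s : Fin N → Po N k) (c : Po N k),
  (∀ i, (s i).totalDegree ≤ 1) ∧ c ≠ 0 ∧ ∀ t : Fin N → k, eval t c ≠ 0 →
    ∃ S : Finset (Fin N → k), B ≤ (S.card : ℝ) ∧ ∀ x ∈ S, ∀ i : Fin N,
      ((i : ℕ) < j → eval ((pmap f)^[m] x) (s i) = t i) ∧
      (j ≤ (i : ℕ) → eval x (s i) = t i)

variable {K : Type} [Field K] [Algebra k K] {ξ : Fin (N + 2) → K} {τ : K →ₐ[k] K}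

/-- the numerators -/
noncomputable def nmr (d : ℕ) (f : Tup N k) (m j : ℕ) (a : Fin N → Po (N + 2) k) (i : Fin N) :
    Po (N + 2) k := if (i : ℕ) < j then aeval (it (hmt d f) m) (a i) else a i

theorem nmr_hom (hf : ∀ i, (f i).totalDegree ≤ d) {m j : ℕ} {a : Fin N → Po (N + 2) k}
    (ha : ∀ i, (a i).IsHomogeneous 1) (i : Fin N) :
    (nmr d f m j a i).IsHomogeneous (if (i : ℕ) < j then d ^ m * 1 else 1) := by
  rw [nmr]
  split_ifs
  · exact aeval_hom (it_hom (hmt_hom hf) m) (ha i)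
  · exact ha i

theorem eval_it (x : Fin (N + 2) → k) (m : ℕ) (q : Po (N + 2) k) :
    eval x (aeval (it (hmt d f) m) q) = eval ((pmap (hmt d f))^[m] x) q := by
  rw [Pool.Agent.H18.HIT.eval_aeval, pmap_it]

theorem nmr_one (z : Fin N → k) (m j : ℕ) (i : Fin N) :
    eval (apt z) (nmr d f m j (fun _ => X 1) i) = 1 := by
  rw [nmr]
  split_ifs
  · rw [eval_it, pmap_hmt_iter, eval_X, apt_one]
  · rw [eval_X, apt_one]

theorem nmr_eval (z : Fin N → k) (m j : ℕ) (a : Fin N → Po (N + 2) k) (i : Fin N) :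
    eval (apt z) (nmr d f m j a i) =
      if (i : ℕ) < j then eval ((pmap f)^[m] z) (rsa (a i)) else eval z (rsa (a i)) := by
  rw [nmr]
  split_ifs
  · rw [eval_it, pmap_hmt_iter, eval_rsa]
  · rw [eval_rsa]

theorem aeval_nmr (hf : ∀ i, (f i).totalDegree ≤ d) (hsl : Slf (I0 N k) (hmt d f))
    (h : Fd (X 0) (hmt d f) ξ τ) (m j : ℕ) (s : Fin N → Fin (N + 2) → k) (i : Fin N) :
    aeval ξ (nmr d f m j (fun _ => X 1) i) ≠ 0 ∧
    aeval ξ (nmr d f m j (fun i => plf (s i)) i) / aeval ξ (nmr d f m j (fun _ => X 1) i) =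
      lc (s i) (if (i : ℕ) < j then pn τ ξ m else ξ) := by
  obtain ⟨h1, h2⟩ := pn_eq h hyp0 (hmt_hom hf) hsl m
  have h3 : ∀ q : Po (N + 2) k, aeval ξ (aeval (it (hmt d f) m) q) =
      aeval (fun l => aeval ξ (it (hmt d f) m l)) q := by
    intro q
    rw [← AlgHom.comp_apply, comp_aeval]
  rw [nmr, nmr]
  split_ifs with hi
  · rw [h3, h3, aeval_X]
    refine ⟨h1, ?_⟩
    rw [plf_aeval, lc, lc, Finset.sum_div]
    refine Finset.sum_congr rfl fun l _ => ?_
    rw [h2 l, smul_div_assoc]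
  · rw [aeval_X, h.gp.one, div_one, plf_aeval]
    exact ⟨one_ne_zero, rfl⟩

theorem top_div (h : Fd (X 0) (hmt d f) ξ τ) : IntermediateField.adjoin k
    (Set.range fun i => ξ i / aeval ξ (X 1 : Po (N + 2) k)) = ⊤ := by
  rw [← h.gp.top]
  congr 2
  funext i
  rw [aeval_X, h.gp.one, div_one]

theorem Uat.dgm_le [IsAlgClosed k] [CharZero k] (hf : ∀ i, (f i).totalDegree ≤ d)
    (hsl : Slf (I0 N k) (hmt d f)) (h : Fd (X 0) (hmt d f) ξ τ) {m j : ℕ} {B : ℝ}
    (hU : Uat f m j B) (s : Fin N → Fin (N + 2) → k) : (dgm k (pn τ ξ m) ξ j s : ℝ) ≤ B := by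
  classical
  obtain ⟨c, hc, hpts⟩ := hU (fun i => rsa (plf (s i))) fun i => rsa_plf_deg (s i)
  have hB : 0 ≤ B := by
    obtain ⟨t, ht⟩ : ∃ t : Fin N → k, eval t c ≠ 0 := by
      by_contra hcon
      push Not at hcon
      exact hc (MvPolynomial.funext fun t => by rw [hcon t, map_zero])
    have h1 := hpts t ht ∅ (fun x hx => absurd hx (Finset.notMem_empty x))
    rwa [Finset.card_empty, Nat.cast_zero] at h1
  have h2 := Pool.Agent.H79.ED.pf_UPD (N + 2) N ⌊B⌋₊ k K (I0 N k) ξ (X 1)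
    (nmr d f m j fun i => plf (s i)) (nmr d f m j fun _ => X 1)
    (fun i => if (i : ℕ) < j then d ^ m * 1 else 1) c I0_prime I0_hom h.gp.trd
    (isHomogeneous_X k 1) (nmr_hom hf fun i => plf_hom (s i))
    (nmr_hom hf fun _ => isHomogeneous_X k 1)
    (by rw [aeval_X, h.gp.one]; exact one_ne_zero)
    (fun i => (aeval_nmr hf hsl h m j s i).1) (top_div h)
    (fun t q hq => (h.gp.iff t q hq).trans mem_I0.symm) hc (fun t ht S hS => by
      have hpt : ∀ x ∈ S, apt (fun i : Fin N => x i.succ.succ) = x := fun x hx => by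
        obtain ⟨h1, h2, -⟩ := hS x hx
        rw [eval_X] at h2
        exact apt_ext (zer_I0.1 h1) h2
      have hinj : Set.InjOn (fun (x : Fin (N + 2) → k) (i : Fin N) => x i.succ.succ) S := by
        intro x hx x' hx' heq
        rw [← hpt x hx, ← hpt x' hx']
        exact congrArg apt heq
      rw [← Finset.card_image_of_injOn hinj]
      refine Nat.le_floor (hpts t ht _ fun z hz i => ?_)
      obtain ⟨x, hx, rfl⟩ := Finset.mem_image.1 hz
      have h3 := ((hS x hx).2.2 i).2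
      rw [← hpt x hx, nmr_one, mul_one, nmr_eval] at h3
      exact ⟨fun hi => by rwa [if_pos hi] at h3, fun hi => by rwa [if_neg (by omega)] at h3⟩)
  have h4 : (fun i : Fin N => aeval ξ (nmr d f m j (fun i => plf (s i)) i) /
      aeval ξ (nmr d f m j (fun _ => X 1) i)) =
      fun i : Fin N => lc (s i) (if (i : ℕ) < j then pn τ ξ m else ξ) :=
    funext fun i => (aeval_nmr hf hsl h m j s i).2
  rw [h4] at h2
  exact (Nat.cast_le.2 h2).trans (Nat.floor_le hB)

theorem Lat.dgm_ge [IsAlgClosed k] [CharZero k] (hf : ∀ i, (f i).totalDegree ≤ d)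
    (hsl : Slf (I0 N k) (hmt d f)) (h : Fd (X 0) (hmt d f) ξ τ) {m j : ℕ} {B : ℝ}
    (hL : Lat f m j B) : ∃ s : Fin N → Fin (N + 2) → k, B ≤ (dgm k (pn τ ξ m) ξ j s : ℝ) := by
  classical
  obtain ⟨a, c, ha, hc, hpts⟩ := hL
  choose s hs using fun i => exists_plf (ha i)
  refine ⟨s, ?_⟩
  have h2 := Pool.Agent.H8.EDA.dgn ⌈B⌉₊ (I0 N k) ξ (X 1)
    (nmr d f m j fun i => plf (s i)) (nmr d f m j fun _ => X 1)
    (fun i => if (i : ℕ) < j then d ^ m * 1 else 1) c h.gp.trd
    (isHomogeneous_X k 1) (nmr_hom hf fun i => plf_hom (s i))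
    (nmr_hom hf fun _ => isHomogeneous_X k 1)
    (by rw [aeval_X, h.gp.one]; exact one_ne_zero)
    (fun i => (aeval_nmr hf hsl h m j s i).1) (top_div h)
    (fun t q hq h0 => mem_I0.2 ((h.gp.iff t q hq).1 h0)) hc (fun t ht => by
      obtain ⟨S, hS, hSx⟩ := hpts t ht
      have hinj : Set.InjOn (apt : (Fin N → k) → Fin (N + 2) → k) S := by
        intro z _ z' _ heq
        funext i
        exact congrFun heq i.succ.succ
      refine ⟨S.image apt, ?_, fun x hx => ?_⟩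
      · rw [Finset.card_image_of_injOn hinj]
        exact Nat.ceil_le.2 hS
      · obtain ⟨z, hz, rfl⟩ := Finset.mem_image.1 hx
        refine ⟨zer_I0.2 (apt_zero z), by rw [eval_X, apt_one], fun i => ?_⟩
        rw [nmr_one, mul_one, nmr_eval]
        refine ⟨one_ne_zero, ?_⟩
        obtain ⟨h5, h6⟩ := hSx z hz i
        have h7 : rsa (plf (s i)) = a i := by rw [← hs i, rsa_hmf]
        rw [h7]
        split_ifs with hi
        · exact h5 hi
        · exact h6 (by omega))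
  have h4 : (fun i : Fin N => aeval ξ (nmr d f m j (fun i => plf (s i)) i) /
      aeval ξ (nmr d f m j (fun _ => X 1) i)) =
      fun i : Fin N => lc (s i) (if (i : ℕ) < j then pn τ ξ m else ξ) :=
    funext fun i => (aeval_nmr hf hsl h m j s i).2
  rw [h4] at h2
  exact (Nat.le_ceil B).trans (Nat.cast_le.2 h2)

end

end Pool.Agent.H2.EDF
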