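import Pool.Agent.H2.EDF.Aff3
import Pool.Agent.H2.ED.Gam3

/-!
# Zariski dense orbits of polynomial self-maps of affine space: the dynamical degrees at the ends
-/

set_option autoImplicit false

open MvPolynomial
open Pool.Agent.H12.ZD (pmap)
open Pool.Agent.H18.HIT Pool.Agent.H18.HX Pool.Agent.H18.VZ
open Pool.Agent.H8.TD (lc dg)
open Pool.Agent.H8.TX (Upv)
open Pool.Agent.H2.ED
open Pool.Agent.H18.EDB (dgm)

namespace Pool.Agent.H2.EDF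

theorem exists_deg {N : ℕ} {k : Type} [Field k] (f : Tup N k) :
    ∃ d : ℕ, 2 ≤ d ∧ ∀ i, (f i).totalDegree ≤ d := by
  refine ⟨2 + ∑ i, (f i).totalDegree, by omega, fun i => ?_⟩
  have := Finset.single_le_sum (f := fun i => (f i).totalDegree) (fun _ _ => Nat.zero_le _)
    (Finset.mem_univ i)
  omega

/-- **`λ_1 > λ_3`**: polynomial self-maps of affine space over `Q̄` -/
theorem affA {N : ℕ} (hN : 3 ≤ N) (f : Tup N Qb) (hdom : ∀ q : Po N Qb, aeval f q = 0 → q = 0)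
    (hinv : ¬ ∃ p q : Po N Qb, q ≠ 0 ∧ (∀ s : Qb, p ≠ C s * q) ∧
      aeval f p * q = aeval f q * p) (μ μ' D : ℝ) (hμ' : 0 ≤ μ') (hμ : μ' < μ)
    (hge : ∀ M : ℕ, ∃ m ≥ M, Lat f m 1 (μ ^ m)) (hle : ∀ m, Uat f m 3 (D * μ' ^ m))
    (b : Po N Qb) (hb : b ≠ 0) :
    ∃ z : Fin N → Qb, (∀ j : ℕ, eval ((pmap f)^[j] z) b ≠ 0) ∧
      ∀ q : Po N Qb, (∀ j : ℕ, eval ((pmap f)^[j] z) q = 0) → q = 0 := by
  obtain ⟨d, hd, hf⟩ := exists_deg f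
  have hsl := hmt_slf (by omega : 1 ≤ d) hf hdom
  obtain ⟨K, _, _, ξ, τ, hfd⟩ := pf_FLD N 1 d Qb (X 0) (hmt d f) hyp0 (hmt_hom hf) hsl
  obtain ⟨y, hy, hyb, hyd⟩ := Pool.Agent.H8.EDA.Al.alp N 1 d (X 0) (tst b) (hmt d f) K ξ τ μ μ' D
    hN hyp0 (by omega) hd (hmt_hom hf) hsl (hmt_niv hf hinv) hfd hμ' hμ
    (fun M => by
      obtain ⟨m, hm, hL⟩ := hge M
      exact ⟨m, hm, hL.dgm_ge hf hsl hfd⟩)
    (fun m s => (hle m).dgm_le hf hsl hfd s) ⟨_, tst_hom b⟩ (tst_ndvd hb)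
  rw [eval_X] at hy
  exact back hf hy hyb hyd

/-- **`λ_(N - 1) > e, λ_(N - 3)`**: polynomial self-maps of affine space over `Q̄` -/
theorem affB {N : ℕ} (hN : 3 ≤ N) (f : Tup N Qb) (hdom : ∀ q : Po N Qb, aeval f q = 0 → q = 0)
    (hinv : ¬ ∃ p q : Po N Qb, q ≠ 0 ∧ (∀ s : Qb, p ≠ C s * q) ∧
      aeval f p * q = aeval f q * p) (e : ℕ) (μ μ' D : ℝ) (hμe : (e : ℝ) < μ) (hμ' : 0 ≤ μ')
    (hμ : μ' < μ) (hpre : ∃ c : Po N Qb, c ≠ 0 ∧ ∀ y, eval y c ≠ 0 →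
      ∀ S : Finset (Fin N → Qb), (∀ x ∈ S, pmap f x = y) → S.card ≤ e)
    (hge : ∀ M : ℕ, ∃ m ≥ M, Lat f m (N - 1) (μ ^ m)) (hle : ∀ m, Uat f m (N - 3) (D * μ' ^ m))
    (b : Po N Qb) (hb : b ≠ 0) :
    ∃ z : Fin N → Qb, (∀ j : ℕ, eval ((pmap f)^[j] z) b ≠ 0) ∧
      ∀ q : Po N Qb, (∀ j : ℕ, eval ((pmap f)^[j] z) q = 0) → q = 0 := by
  obtain ⟨d, hd, hf⟩ := exists_deg f
  have hd1 : 1 ≤ d := by omega
  have hsl := hmt_slf hd1 hf hdom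
  obtain ⟨K, _, _, ξ, τ, hfd⟩ := pf_FLD N 1 d Qb (X 0) (hmt d f) hyp0 (hmt_hom hf) hsl
  obtain ⟨c, hc, hpc⟩ := hpre
  obtain ⟨he1, hee, hcv⟩ := upv_data hyp0 hd1 (hmt_hom hf) hsl (hmt_upv hd1 hf hc hpc) hfd
  have hee' : (Module.finrank τ.fieldRange K : ℝ) ≤ e := Nat.cast_le.2 hee
  obtain ⟨y, hy, hyb, hyd⟩ := Al.bet N 1 d (Module.finrank τ.fieldRange K) (X 0) (tst b)
    (hmt d f) K ξ τ μ μ' D hN hyp0 (by omega) hd (hmt_hom hf) hsl (hmt_niv hf hinv) hfd he1 le_rfl hcv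
    (by linarith) hμ' hμ
    (fun M => by
      obtain ⟨m, hm, hL⟩ := hge M
      exact ⟨m, hm, hL.dgm_ge hf hsl hfd⟩)
    (fun m s => (hle m).dgm_le hf hsl hfd s) ⟨_, tst_hom b⟩ (tst_ndvd hb)
  rw [eval_X] at hy
  exact back hf hy hyb hyd

/-- **`e > λ_(N - 2)`**: polynomial self-maps of affine space -/
theorem affG {N : ℕ} (hN : 2 ≤ N) {k : Type} [Field k] [IsAlgClosed k] [CharZero k]
    (hk : Pool.Agent.H18.VP.Ftd k) (f : Tup N k) (hdom : ∀ q : Po N k, aeval f q = 0 → q = 0)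
    (hinv : ¬ ∃ p q : Po N k, q ≠ 0 ∧ (∀ s : k, p ≠ C s * q) ∧
      aeval f p * q = aeval f q * p) (e : ℕ) (μ D : ℝ) (hμ0 : 0 ≤ μ) (hμe : μ < e)
    (hpre : ∃ c : Po N k, c ≠ 0 ∧ ∀ y, eval y c ≠ 0 →
      ∃ S : Finset (Fin N → k), S.card = e ∧ ∀ x ∈ S, pmap f x = y)
    (hle : ∀ m, Uat f m (N - 2) (D * μ ^ m)) (b : Po N k) (hb : b ≠ 0) :
    ∃ z : Fin N → k, (∀ j : ℕ, eval ((pmap f)^[j] z) b ≠ 0) ∧
      ∀ q : Po N k, (∀ j : ℕ, eval ((pmap f)^[j] z) q = 0) → q = 0 := by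
  obtain ⟨d, hd, hf⟩ := exists_deg f
  have hd1 : 1 ≤ d := by omega
  have hsl := hmt_slf hd1 hf hdom
  obtain ⟨c, hc, hpc⟩ := hpre
  obtain ⟨y, hy, hyb, hyd⟩ := gam k hk (ν := N) (r := 1) (d := d) (e := e) (μ := μ) (C := D)
    (P := X 0) (b := tst b) (F := hmt d f) hyp0 hd1 hd (hmt_hom hf) hsl (hmt_niv hf hinv)
    (hmt_cvi hd1 hf hc hpc) hμ0 hμe
    (fun K _ _ ξ τ hfd m s => by
      have h1 := (hle m).dgm_le hf hsl hfd (fun i => s i.rev)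
      rw [dgm] at h1
      have h2 : (Set.range fun i : Fin N => lc (s i.rev)
          (if (i : ℕ) < N - 2 then pn τ ξ m else ξ)) =
          Set.range fun i : Fin N => if (i : ℕ) < 2 then lc (s i) ξ else lc (s i) (pn τ ξ m) := by
        rw [← Fin.revPerm.surjective.range_comp]
        congr 1
        funext i
        simp only [Function.comp_apply, Fin.revPerm_apply]
        rw [Fin.rev_rev]
        have hi := i.2
        by_cases h3 : (i : ℕ) < 2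
        · rw [if_pos h3, if_neg]
          rw [Fin.val_rev]
          omega
        · rw [if_neg h3, if_pos]
          rw [Fin.val_rev]
          omega
      rwa [h2] at h1) ⟨_, tst_hom b⟩ (tst_ndvd hb)
  rw [eval_X] at hy
  exact back hf hy hyb hyd

end Pool.Agent.H2.EDF
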